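import Mathlib

/-!
Algebraic core for the loading problem of the three-neuron network with two sigmoid hidden units.

A point of the plane is `(p, q)` with `p, q > 0` (exponentials of the two inner activations), and
the network answers `1` at it iff `C * q + D ≤ p * (A * q + B)`.
-/

namespace Pool.Agent.Helper81_Load

/-- The exchange inequality. `t` is the `q`-coordinate of a point with answer `1`, `y * t` that of a
point with answer `0` obtained from it by the move `(x, y)`, `s` that of another point with answer
`0`. Then the move `(x, y)` takes the latter to a point with answer `0`. -/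
lemma exchange {A B C D t s y p0 x p1 : ℝ} (hA : 0 < A) (hD : 0 < D) (ht : 0 < t) (hs : 0 < s)
    (hy : 0 < y) (hp0 : 0 < p0) (hx : 0 < x) (hp1 : 0 < p1) (hB : 0 < B)
    (hpos : C * t + D ≤ p0 * (A * t + B))
    (hneg1 : p0 * x * (A * (t * y) + B) < C * (t * y) + D)
    (hneg2 : p1 * (A * s + B) < C * s + D)
    (hcond : 0 ≤ (t - s) * (1 - y) * ((A * D - B * C) * (A * C * (y * s * t) - B * D))) :
    p1 * x * (A * (s * y) + B) < C * (s * y) + D := by
  have a1 : 0 < A * t + B := by positivity
  have a2 : 0 < A * (t * y) + B := by positivity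
  have a3 : 0 < A * s + B := by positivity
  have a4 : 0 < A * (s * y) + B := by positivity
  have n2 : 0 < C * (t * y) + D := lt_trans (by positivity) hneg1
  have n3 : 0 < C * s + D := lt_trans (by positivity) hneg2
  have key : (C * (t * y) + D) * (C * s + D) * ((A * (s * y) + B) * (A * t + B)) ≤
      (C * (s * y) + D) * (C * t + D) * ((A * (t * y) + B) * (A * s + B)) := by
    have : (C * (s * y) + D) * (C * t + D) * ((A * (t * y) + B) * (A * s + B)) -
      (C * (t * y) + D) * (C * s + D) * ((A * (s * y) + B) * (A * t + B)) =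
      (t - s) * (1 - y) * ((A * D - B * C) * (A * C * (y * s * t) - B * D)) := by ring
    linarith
  have hprod : 0 < (C * (t * y) + D) * (C * s + D) * ((A * (s * y) + B) * (A * t + B)) := by
    positivity
  have hn14 : 0 < (C * (s * y) + D) * (C * t + D) := by
    by_contra hcon
    push Not at hcon
    have : (C * (s * y) + D) * (C * t + D) * ((A * (t * y) + B) * (A * s + B)) ≤ 0 :=
      mul_nonpos_of_nonpos_of_nonneg hcon (by positivity)
    linarith
  have n1 : 0 < C * t + D := by
    by_contra hcon
    push Not at hcon
    have n4 : C * (s * y) + D < 0 := by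
      by_contra h4
      push Not at h4
      have := mul_nonpos_of_nonneg_of_nonpos h4 hcon
      linarith
    have hC : C < 0 := by
      by_contra hC
      push Not at hC
      have : 0 ≤ C * t := by positivity
      linarith
    have h1 : y < 1 := by
      by_contra h1
      push Not at h1
      have : t ≤ t * y := by nlinarith
      have : C * (t * y) ≤ C * t := mul_le_mul_of_nonpos_left this hC.le
      linarith
    have : s * y ≤ s := by nlinarith
    have : C * s ≤ C * (s * y) := mul_le_mul_of_nonpos_left this hC.le
    linarith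
  by_contra hcon
  push Not at hcon
  have e1 : (C * (s * y) + D) * (C * t + D) * ((A * (t * y) + B) * (A * s + B)) ≤
      (p1 * x * (A * (s * y) + B)) * (p0 * (A * t + B)) * ((A * (t * y) + B) * (A * s + B)) := by
    apply mul_le_mul_of_nonneg_right _ (by positivity)
    apply mul_le_mul hcon hpos n1.le (by positivity)
  have e2 : (p1 * x * (A * (s * y) + B)) * (p0 * (A * t + B)) * ((A * (t * y) + B) * (A * s + B)) =
      (p0 * x * (A * (t * y) + B)) * (p1 * (A * s + B)) * ((A * (s * y) + B) * (A * t + B)) := by
    ring
  have e3 : (p0 * x * (A * (t * y) + B)) * (p1 * (A * s + B)) * ((A * (s * y) + B) * (A * t + B)) <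
      (C * (t * y) + D) * (C * s + D) * ((A * (s * y) + B) * (A * t + B)) := by
    apply mul_lt_mul_of_pos_right _ (by positivity)
    apply mul_lt_mul hneg1 hneg2.le (by positivity) n2.le
  linarith

/-- The exchange inequality in the case `B ≤ 0 ≤ C`. -/
lemma exchange' {A B C D t s y p0 x p1 : ℝ} (hA : 0 < A) (hD : 0 < D) (ht : 0 < t) (hs : 0 < s)
    (hy : 0 < y) (hp0 : 0 < p0) (hx : 0 < x) (hp1 : 0 < p1) (hB : B ≤ 0) (hC : 0 ≤ C)
    (hpos : C * t + D ≤ p0 * (A * t + B))
    (hneg1 : p0 * x * (A * (t * y) + B) < C * (t * y) + D)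
    (hneg2 : p1 * (A * s + B) < C * s + D)
    (hcond : (y ≤ 1 ∧ s ≤ t) ∨ (1 ≤ y ∧ t ≤ s)) :
    p1 * x * (A * (s * y) + B) < C * (s * y) + D := by
  have n1 : 0 < C * t + D := by positivity
  have n2 : 0 < C * (t * y) + D := by positivity
  have n3 : 0 < C * s + D := by positivity
  have n4 : 0 < C * (s * y) + D := by positivity
  have a1 : 0 < A * t + B := by
    by_contra h
    push Not at h
    have : p0 * (A * t + B) ≤ 0 := mul_nonpos_of_nonneg_of_nonpos hp0.le h
    linarith
  by_cases a4' : A * (s * y) + B ≤ 0
  · have : p1 * x * (A * (s * y) + B) ≤ 0 :=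
      mul_nonpos_of_nonneg_of_nonpos (by positivity) a4'
    linarith
  push Not at a4'
  have a2 : 0 < A * (t * y) + B := by
    rcases hcond with ⟨_, h2⟩ | ⟨h1, _⟩
    · have : A * (s * y) ≤ A * (t * y) := by gcongr
      linarith
    · have : A * t ≤ A * (t * y) := by
        apply mul_le_mul_of_nonneg_left _ hA.le
        nlinarith
      linarith
  have a3 : 0 < A * s + B := by
    rcases hcond with ⟨h1, _⟩ | ⟨_, h2⟩
    · have : A * (s * y) ≤ A * s := by
        apply mul_le_mul_of_nonneg_left _ hA.le
        nlinarith
      linarith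
    · have : A * t ≤ A * s := by gcongr
      linarith
  have key : (C * (t * y) + D) * (C * s + D) * ((A * (s * y) + B) * (A * t + B)) ≤
      (C * (s * y) + D) * (C * t + D) * ((A * (t * y) + B) * (A * s + B)) := by
    have e : (C * (s * y) + D) * (C * t + D) * ((A * (t * y) + B) * (A * s + B)) -
      (C * (t * y) + D) * (C * s + D) * ((A * (s * y) + B) * (A * t + B)) =
      ((t - s) * (1 - y)) * ((A * D - B * C) * (A * C * (y * s * t) - B * D)) := by ring
    have h1 : 0 ≤ (t - s) * (1 - y) := by
      rcases hcond with ⟨h1, h2⟩ | ⟨h1, h2⟩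
      · exact mul_nonneg (by linarith) (by linarith)
      · exact mul_nonneg_of_nonpos_of_nonpos (by linarith) (by linarith)
    have h2 : 0 ≤ A * D - B * C := by
      have : B * C ≤ 0 := mul_nonpos_of_nonpos_of_nonneg hB hC
      have : 0 < A * D := by positivity
      linarith
    have h3 : 0 ≤ A * C * (y * s * t) - B * D := by
      have : B * D ≤ 0 := mul_nonpos_of_nonpos_of_nonneg hB hD.le
      have : 0 ≤ A * C * (y * s * t) := by positivity
      linarith
    have := mul_nonneg h1 (mul_nonneg h2 h3)
    linarith
  by_contra hcon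
  push Not at hcon
  have e1 : (C * (s * y) + D) * (C * t + D) * ((A * (t * y) + B) * (A * s + B)) ≤
      (p1 * x * (A * (s * y) + B)) * (p0 * (A * t + B)) * ((A * (t * y) + B) * (A * s + B)) := by
    apply mul_le_mul_of_nonneg_right _ (by positivity)
    apply mul_le_mul hcon hpos n1.le (by positivity)
  have e2 : (p1 * x * (A * (s * y) + B)) * (p0 * (A * t + B)) * ((A * (t * y) + B) * (A * s + B)) =
      (p0 * x * (A * (t * y) + B)) * (p1 * (A * s + B)) * ((A * (s * y) + B) * (A * t + B)) := by
    ring
  have e3 : (p0 * x * (A * (t * y) + B)) * (p1 * (A * s + B)) * ((A * (s * y) + B) * (A * t + B)) <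
      (C * (t * y) + D) * (C * s + D) * ((A * (s * y) + B) * (A * t + B)) := by
    apply mul_lt_mul_of_pos_right _ (by positivity)
    apply mul_lt_mul hneg1 hneg2.le (by positivity) n2.le
  linarith

end Pool.Agent.Helper81_Load
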