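import Mathlib
import Pool.Agent.Helper81_Load.Core

/-!
The canonical form of the network and the combinatorial consequences of the labels.
-/

namespace Pool.Agent.Helper81_Load

open Finset

/-- Coefficients of the canonical form: the answer at `(p, q)` is `1` iff
`C * q + D ≤ p * (A * q + B)`. -/
structure Coef where
  A : ℝ
  B : ℝ
  C : ℝ
  D : ℝ
  hA : 0 < A
  hD : 0 < D
  hdisc : B * C ≤ A * D
  hBC : 0 < B ∨ (B ≤ 0 ∧ 0 ≤ C)

/-- The answer `1` region. -/
def Coef.Pos (c : Coef) (p q : ℝ) : Prop := c.C * q + c.D ≤ p * (c.A * q + c.B)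

lemma Coef.mono (c : Coef) {p q p' q' : ℝ} (hp : 0 < p) (hq : 0 < q) (hpp : p ≤ p') (hqq : q ≤ q')
    (h : c.Pos p q) : c.Pos p' q' := by
  obtain ⟨A, B, C, D, hA, hD, hdisc, hBC⟩ := c
  simp only [Coef.Pos] at *
  have hp' : 0 < p' := lt_of_lt_of_le hp hpp
  have h0 : 0 ≤ A * q + B := by
    rcases hBC with hB | ⟨_, hC⟩
    · positivity
    · by_contra hcon
      push Not at hcon
      have h1 : p * (A * q + B) ≤ 0 := mul_nonpos_of_nonneg_of_nonpos hp.le hcon.le
      have h2 : 0 < C * q + D := by positivity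
      linarith
  have h1 : C * q + D ≤ p' * (A * q + B) := h.trans (mul_le_mul_of_nonneg_right hpp h0)
  have h2 : 0 ≤ A * p' - C := by
    by_cases h3 : 0 < D - B * p'
    · by_contra hcon
      push Not at hcon
      have : q * (A * p' - C) ≤ 0 := mul_nonpos_of_nonneg_of_nonpos hq.le hcon.le
      nlinarith
    · push Not at h3
      have hB : 0 < B := by
        rcases hBC with hB | ⟨hB, _⟩
        · exact hB
        · have : B * p' ≤ 0 := mul_nonpos_of_nonpos_of_nonneg hB hp'.le
          linarith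
      have h4 : B * C ≤ B * (A * p') := by
        have : A * D ≤ A * (B * p') := mul_le_mul_of_nonneg_left (by linarith) hA.le
        calc B * C ≤ A * D := hdisc
          _ ≤ A * (B * p') := this
          _ = B * (A * p') := by ring
      have := le_of_mul_le_mul_left h4 hB
      linarith
  have h3 : q * (A * p' - C) ≤ q' * (A * p' - C) := mul_le_mul_of_nonneg_right hqq h2
  nlinarith

/-- The centre lemma: an `xor` parallelogram spanned by a move `(Xr, Yr)` with `Xr < 1 < Yr` and a
move `(Xb, Yb)` with `Yb < 1 < Xb` has its centre in the convex part. -/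
lemma Coef.center (c : Coef) (hB : 0 < c.B) {p q Xr Yr Xb Yb : ℝ} (hp : 0 < p) (hq : 0 < q)
    (hXr : 0 < Xr) (hXr1 : Xr < 1) (hYr : 1 < Yr) (hXb : 1 < Xb) (hYb : 0 < Yb) (hYb1 : Yb < 1)
    (h0 : c.Pos p q) (hr : ¬ c.Pos (p * Xr) (q * Yr)) (hb : ¬ c.Pos (p * Xb) (q * Yb))
    (hrb : c.Pos (p * Xr * Xb) (q * Yr * Yb)) :
    0 < c.C ∧ c.B * c.D < c.A * c.C * (q * (q * Yr * Yb)) := by
  obtain ⟨A, B, C, D, hA, hD, hdisc, hBC⟩ := c
  simp only [Coef.Pos, not_le] at *
  have hM : 0 < (1 - Xr) * (1 - Yb) := mul_pos (by linarith) (by linarith)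
  have hN : 0 < (Yr - 1) * (Xb - 1) := mul_pos (by linarith) (by linarith)
  have hYr0 : 0 < Yr := by linarith
  have hXb0 : 0 < Xb := by linarith
  -- (i) the operator killing the `A` and the `D` terms
  have hi : B * p * Xr * ((Yr - 1) * (Xb - 1)) < C * q * Yr * ((1 - Xr) * (1 - Yb)) := by
    have e1 : (p * Xr * Xb * (A * (q * Yr * Yb) + B) - (C * (q * Yr * Yb) + D)) +
        ((C * (q * Yr) + D) - p * Xr * (A * (q * Yr) + B)) +
        Xr * Yr * ((C * (q * Yb) + D) - p * Xb * (A * (q * Yb) + B)) +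
        Xr * Yr * (p * (A * q + B) - (C * q + D)) =
        C * q * Yr * ((1 - Xr) * (1 - Yb)) - B * p * Xr * ((Yr - 1) * (Xb - 1)) := by ring
    have e2 : 0 < Xr * Yr * ((C * (q * Yb) + D) - p * Xb * (A * (q * Yb) + B)) :=
      mul_pos (by positivity) (by linarith)
    have e3 : 0 ≤ Xr * Yr * (p * (A * q + B) - (C * q + D)) :=
      mul_nonneg (by positivity) (by linarith)
    linarith
  -- (iii) the operator killing the `B` and the `C` terms
  have hiii : D * ((1 - Xr) * (1 - Yb)) < A * p * q * Xr * Yb * ((Yr - 1) * (Xb - 1)) := by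
    have e1 : (p * Xr * Xb * (A * (q * Yr * Yb) + B) - (C * (q * Yr * Yb) + D)) +
        Yb * ((C * (q * Yr) + D) - p * Xr * (A * (q * Yr) + B)) +
        Xr * ((C * (q * Yb) + D) - p * Xb * (A * (q * Yb) + B)) +
        Xr * Yb * (p * (A * q + B) - (C * q + D)) =
        A * p * q * Xr * Yb * ((Yr - 1) * (Xb - 1)) - D * ((1 - Xr) * (1 - Yb)) := by ring
    have e2 : 0 < Xr * ((C * (q * Yb) + D) - p * Xb * (A * (q * Yb) + B)) :=
      mul_pos (by positivity) (by linarith)
    have e3 : 0 ≤ Xr * Yb * (p * (A * q + B) - (C * q + D)) :=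
      mul_nonneg (by positivity) (by linarith)
    have e4 : 0 < Yb * ((C * (q * Yr) + D) - p * Xr * (A * (q * Yr) + B)) :=
      mul_pos (by positivity) (by linarith)
    linarith
  have hC : 0 < C := by
    have h1 : 0 < C * q * Yr * ((1 - Xr) * (1 - Yb)) := lt_trans (by positivity) hi
    by_contra hcon
    push Not at hcon
    have : C * q * Yr * ((1 - Xr) * (1 - Yb)) = C * (q * Yr * ((1 - Xr) * (1 - Yb))) := by ring
    rw [this] at h1
    have := mul_nonpos_of_nonpos_of_nonneg hcon
      (show (0 : ℝ) ≤ q * Yr * ((1 - Xr) * (1 - Yb)) by positivity)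
    linarith
  refine ⟨hC, ?_⟩
  set M := (1 - Xr) * (1 - Yb) with hMdef
  set N := (Yr - 1) * (Xb - 1) with hNdef
  have h1 : (B * p * Xr * N) * (D * M) < (C * q * Yr * M) * (A * p * q * Xr * Yb * N) := by
    apply mul_lt_mul'' hi hiii (by positivity) (by positivity)
  have h2 : (B * D) * (p * Xr * M * N) < (A * C * (q * (q * Yr * Yb))) * (p * Xr * M * N) := by
    calc (B * D) * (p * Xr * M * N) = (B * p * Xr * N) * (D * M) := by ring
      _ < (C * q * Yr * M) * (A * p * q * Xr * Yb * N) := h1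
      _ = (A * C * (q * (q * Yr * Yb))) * (p * Xr * M * N) := by ring
  exact lt_of_mul_lt_mul_right h2 (by positivity)

/-- Exchange in terms of `Pos`, case `B > 0`. -/
lemma Coef.exch (c : Coef) (hB : 0 < c.B) {p0 t p1 s x y : ℝ} (ht : 0 < t) (hs : 0 < s)
    (hy : 0 < y) (hp0 : 0 < p0) (hx : 0 < x) (hp1 : 0 < p1)
    (h0 : c.Pos p0 t) (h1 : ¬ c.Pos (p0 * x) (t * y)) (h2 : ¬ c.Pos p1 s)
    (hcond : 0 ≤ (t - s) * (1 - y) * (c.A * c.C * (y * s * t) - c.B * c.D)) :
    ¬ c.Pos (p1 * x) (s * y) := by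
  obtain ⟨A, B, C, D, hA, hD, hdisc, hBC⟩ := c
  simp only [Coef.Pos, not_le] at *
  refine exchange hA hD ht hs hy hp0 hx hp1 hB h0 h1 h2 ?_
  have : (t - s) * (1 - y) * ((A * D - B * C) * (A * C * (y * s * t) - B * D)) =
    (A * D - B * C) * ((t - s) * (1 - y) * (A * C * (y * s * t) - B * D)) := by ring
  rw [this]
  exact mul_nonneg (by linarith) hcond

/-- Moves with second factor `< 1` only: everything stays at answer `0`. -/
lemma Coef.blue (c : Coef) {V : Type*} [DecidableEq V] {p0 q0 : ℝ} (hp0 : 0 < p0) (hq0 : 0 < q0)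
    (X Y : V → ℝ) (hX : ∀ i, 0 < X i) (hY : ∀ i, 0 < Y i) (S : Finset V) (h0 : c.Pos p0 q0)
    (h1 : ∀ i ∈ S, ¬ c.Pos (p0 * X i) (q0 * Y i)) (hS : ∀ i ∈ S, Y i < 1)
    (hcond : c.B ≤ 0 ∨ (0 < c.C ∧ c.B * c.D ≤ c.A * c.C * (q0 * (q0 * ∏ i ∈ S, Y i))))
    (W : Finset V) (hW : W ⊆ S) (hne : W.Nonempty) :
    ¬ c.Pos (p0 * ∏ i ∈ W, X i) (q0 * ∏ i ∈ W, Y i) := by
  induction W using Finset.induction_on with
  | empty => exact absurd hne (by simp)
  | insert j W' hj ih =>
    rw [Finset.insert_subset_iff] at hW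
    rw [Finset.prod_insert hj, Finset.prod_insert hj]
    by_cases hemp : W' = ∅
    · subst hemp
      simpa using h1 j hW.1
    · have ih' := ih hW.2 (Finset.nonempty_iff_ne_empty.mpr hemp)
      have hPY : 0 < ∏ i ∈ W', Y i := Finset.prod_pos fun i _ => hY i
      have hPX : 0 < ∏ i ∈ W', X i := Finset.prod_pos fun i _ => hX i
      have hPY1 : ∏ i ∈ W', Y i ≤ 1 :=
        Finset.prod_le_one (fun i _ => (hY i).le) fun i hi => (hS i (hW.2 hi)).le
      have hs : q0 * ∏ i ∈ W', Y i ≤ q0 := by nlinarith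
      have hres : ¬ c.Pos (p0 * (∏ i ∈ W', X i) * X j) (q0 * (∏ i ∈ W', Y i) * Y j) := by
        rcases c.hBC with hB | ⟨hB, hC⟩
        · have hcond' : 0 < c.C ∧ c.B * c.D ≤ c.A * c.C * (q0 * (q0 * ∏ i ∈ S, Y i)) := by
            rcases hcond with h | h
            · linarith
            · exact h
          refine c.exch hB hq0 (by positivity) (hY j) hp0 (hX j) (by positivity) h0
            (h1 j hW.1) ih' ?_
          have hyj := hS j hW.1
          apply mul_nonneg (mul_nonneg (by linarith) (by linarith))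
          have hprod : ∏ i ∈ S, Y i ≤ Y j * ∏ i ∈ W', Y i := by
            rw [← Finset.prod_insert hj, ← Finset.prod_sdiff (Finset.insert_subset_iff.mpr hW)]
            have h3 : ∏ i ∈ S \ insert j W', Y i ≤ 1 :=
              Finset.prod_le_one (fun i _ => (hY i).le)
                fun i hi => (hS i (Finset.mem_sdiff.mp hi).1).le
            have h4 : 0 < ∏ i ∈ insert j W', Y i := Finset.prod_pos fun i _ => hY i
            nlinarith
          have hA := c.hA
          have hC := hcond'.1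
          have : c.A * c.C * (q0 * (q0 * ∏ i ∈ S, Y i)) ≤
              c.A * c.C * (Y j * (q0 * ∏ i ∈ W', Y i) * q0) := by
            calc c.A * c.C * (q0 * (q0 * ∏ i ∈ S, Y i))
                = c.A * c.C * q0 * q0 * (∏ i ∈ S, Y i) := by ring
              _ ≤ c.A * c.C * q0 * q0 * (Y j * ∏ i ∈ W', Y i) := by gcongr
              _ = c.A * c.C * (Y j * (q0 * ∏ i ∈ W', Y i) * q0) := by ring
          linarith [hcond'.2]
        · have h0' := h0
          have h1' := h1 j hW.1
          have := exchange' (x := X j) (p1 := p0 * ∏ i ∈ W', X i) (s := q0 * ∏ i ∈ W', Y i)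
            c.hA c.hD hq0 (by positivity) (hY j) hp0 (hX j)
            (by positivity) hB hC h0' (by simpa [Coef.Pos] using h1')
            (by simpa [Coef.Pos] using ih') (Or.inl ⟨(hS j hW.1).le, hs⟩)
          simpa [Coef.Pos] using this
      convert hres using 2 <;> ring

/-- Moves with second factor `≥ 1` only: everything stays at answer `0`. -/
lemma Coef.red (c : Coef) {V : Type*} [DecidableEq V] {p0 q0 : ℝ} (hp0 : 0 < p0) (hq0 : 0 < q0)
    (X Y : V → ℝ) (hX : ∀ i, 0 < X i) (hY : ∀ i, 0 < Y i) (S : Finset V) (h0 : c.Pos p0 q0)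
    (h1 : ∀ i ∈ S, ¬ c.Pos (p0 * X i) (q0 * Y i)) (hS : ∀ i ∈ S, 1 ≤ Y i)
    (hcond : c.B ≤ 0 ∨ (0 < c.C ∧ c.B * c.D ≤ c.A * c.C * (q0 * q0)))
    (W : Finset V) (hW : W ⊆ S) (hne : W.Nonempty) :
    ¬ c.Pos (p0 * ∏ i ∈ W, X i) (q0 * ∏ i ∈ W, Y i) := by
  induction W using Finset.induction_on with
  | empty => exact absurd hne (by simp)
  | insert j W' hj ih =>
    rw [Finset.insert_subset_iff] at hW
    rw [Finset.prod_insert hj, Finset.prod_insert hj]
    by_cases hemp : W' = ∅
    · subst hemp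
      simpa using h1 j hW.1
    · have ih' := ih hW.2 (Finset.nonempty_iff_ne_empty.mpr hemp)
      have hPY : 0 < ∏ i ∈ W', Y i := Finset.prod_pos fun i _ => hY i
      have hPX : 0 < ∏ i ∈ W', X i := Finset.prod_pos fun i _ => hX i
      have hPY1 : 1 ≤ ∏ i ∈ W', Y i := by
        have : ∏ i ∈ W', (1 : ℝ) ≤ ∏ i ∈ W', Y i :=
          Finset.prod_le_prod (fun _ _ => zero_le_one) fun i hi => hS i (hW.2 hi)
        simpa using this
      have hs : q0 ≤ q0 * ∏ i ∈ W', Y i := by nlinarith
      have hres : ¬ c.Pos (p0 * (∏ i ∈ W', X i) * X j) (q0 * (∏ i ∈ W', Y i) * Y j) := by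
        rcases c.hBC with hB | ⟨hB, hC⟩
        · have hcond' : 0 < c.C ∧ c.B * c.D ≤ c.A * c.C * (q0 * q0) := by
            rcases hcond with h | h
            · linarith
            · exact h
          refine c.exch hB hq0 (by positivity) (hY j) hp0 (hX j) (by positivity) h0
            (h1 j hW.1) ih' ?_
          have hyj := hS j hW.1
          apply mul_nonneg (mul_nonneg_of_nonpos_of_nonpos (by linarith) (by linarith))
          have hA := c.hA
          have hC := hcond'.1
          have h5 : 1 ≤ Y j * ∏ i ∈ W', Y i := by nlinarith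
          have : c.A * c.C * (q0 * q0) ≤
              c.A * c.C * (Y j * (q0 * ∏ i ∈ W', Y i) * q0) := by
            calc c.A * c.C * (q0 * q0)
                = c.A * c.C * q0 * q0 * 1 := by ring
              _ ≤ c.A * c.C * q0 * q0 * (Y j * ∏ i ∈ W', Y i) := by gcongr
              _ = c.A * c.C * (Y j * (q0 * ∏ i ∈ W', Y i) * q0) := by ring
          linarith [hcond'.2]
        · have h0' := h0
          have h1' := h1 j hW.1
          have := exchange' (x := X j) (p1 := p0 * ∏ i ∈ W', X i) (s := q0 * ∏ i ∈ W', Y i)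
            c.hA c.hD hq0 (by positivity) (hY j) hp0 (hX j)
            (by positivity) hB hC h0' (by simpa [Coef.Pos] using h1')
            (by simpa [Coef.Pos] using ih') (Or.inr ⟨hS j hW.1, hs⟩)
          simpa [Coef.Pos] using this
      convert hres using 2 <;> ring

end Pool.Agent.Helper81_Load
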