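import Mathlib

/-!
Definitions: the three-neuron network with sigmoid hidden units, the loading problem, CNF
satisfiability and the explicit reduction.
-/

namespace Pool.Agent.Helper81_Load

/-- The `2 k + 5` real parameters of the three-neuron network with `k` Boolean inputs. -/
structure Net (k : ℕ) where
  a₁ : Fin k → ℝ
  a₂ : Fin k → ℝ
  b₁ : ℝ
  b₂ : ℝ
  c₀ : ℝ
  c₁ : ℝ
  c₂ : ℝ

/-- The inner product `a · x` with a Boolean vector `x`. -/
def dot {k : ℕ} (a : Fin k → ℝ) (x : Fin k → Bool) : ℝ := ∑ i, a i * (if x i then 1 else 0)

/-- The threshold function: `1` (`true`) on `t ≥ 0`, `0` (`false`) on `t < 0`. -/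
noncomputable def eta (t : ℝ) : Bool := decide (0 ≤ t)

/-- The function `{0,1}^k → {0,1}` computed by the network: two standard sigmoids
`σ t = 1 / (1 + exp (-t))` (`Real.sigmoid`) feeding a threshold unit. -/
noncomputable def Net.output {k : ℕ} (N : Net k) (x : Fin k → Bool) : Bool :=
  eta (N.c₀ + N.c₁ * Real.sigmoid (dot N.a₁ x + N.b₁) + N.c₂ * Real.sigmoid (dot N.a₂ x + N.b₂))

/-- An instance of the loading problem: a number `k` of inputs and a finite list of labelled
examples in `{0,1}^k × {0,1}`. -/
structure Instance where
  k : ℕ
  examples : List ((Fin k → Bool) × Bool)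

/-- The question of the loading problem: some choice of the parameters fits all examples. -/
def Loadable (I : Instance) : Prop :=
  ∃ N : Net I.k, ∀ e ∈ I.examples, N.output e.1 = e.2

/-- A propositional formula in conjunctive normal form with variables `0, …, n - 1`. A literal is
a pair (variable, sign). -/
structure CNF where
  n : ℕ
  clauses : List (List (Fin n × Bool))

/-- Satisfiability of a CNF formula. -/
def CNF.Satisfiable (φ : CNF) : Prop :=
  ∃ v : Fin φ.n → Bool, ∀ C ∈ φ.clauses, ∃ l ∈ C, v l.1 = l.2

/-- All vectors of `{0,1}^4`. -/
def quads : List (Fin 4 → Bool) :=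
  [false, true].flatMap fun a => [false, true].flatMap fun b =>
    [false, true].flatMap fun c => [false, true].map fun d => ![a, b, c, d]

/-- A vector of `{0,1}^4` is balanced if its first two and its last two coordinates have the same
number of ones. -/
def balanced (y : Fin 4 → Bool) : Bool :=
  (y 0).toNat + (y 1).toNat == (y 2).toNat + (y 3).toNat

/-- The labelled examples of a hypergraph on `m` vertices whose edges are given by the list `P` of
their characteristic vectors: in dimension `m + 4`, all `(x, y)` with `y ∈ {0,1}^4` and `x` either
`0` or an edge, labelled `1` iff `y` is balanced, and all `(x, y)` with `x` a unit vector,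
labelled `0`. -/
def exampleList (m : ℕ) (P : List (Fin m → Bool)) : List ((Fin (m + 4) → Bool) × Bool) :=
  (((fun _ => false) :: P).flatMap fun x => quads.map fun y => (Fin.append x y, balanced y)) ++
  ((List.finRange m).flatMap fun i =>
    quads.map fun y => (Fin.append (fun j => decide (j = i)) y, false))

/-- The loading instance of a hypergraph. -/
def ofHypergraph (m : ℕ) (P : List (Fin m → Bool)) : Instance := ⟨m + 4, exampleList m P⟩

/-- The edges of the hypergraph on the `2 n + 1` vertices (the literals and one extra vertex `2 n`)
attached to a CNF: literal `(i, b)` is vertex `2 i + b`; the edges are the pairs of complementary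
literals and, for each clause, its literals together with the extra vertex. -/
def CNF.edges (φ : CNF) : List (Fin (2 * φ.n + 1) → Bool) :=
  ((List.finRange φ.n).map fun i => fun j => decide (j.val / 2 = i.val)) ++
  (φ.clauses.map fun C => fun j =>
    decide (j.val = 2 * φ.n) || C.any fun l => decide (j.val = 2 * l.1.val + l.2.toNat))

/-- The reduction from CNF satisfiability to loading. -/
def CNF.toInstance (φ : CNF) : Instance := ofHypergraph (2 * φ.n + 1) φ.edges

end Pool.Agent.Helper81_Load
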