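import Mathlib
import Pool.Agent.Helper81_Load.Canon

/-!
The gadget on four coordinates `(side, copy)`; a set of them is balanced if it has equally many
coordinates on the two sides.
-/

namespace Pool.Agent.Helper81_Load

open Finset

/-- Balanced subsets of the four gadget coordinates. -/
def Bal (y : Finset (Bool × Bool)) : Prop :=
  (y.filter fun e => e.1 = false).card = (y.filter fun e => e.1 = true).card

instance : DecidablePred Bal := fun y => by unfold Bal; infer_instance

lemma bal_empty : Bal ∅ := by decide
lemma bal_single : ∀ j : Bool × Bool, ¬ Bal {j} := by decide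
lemma bal_opp : ∀ j : Bool × Bool, Bal {j, (!j.1, j.2)} := by decide
lemma bal_pair : ∀ r b : Bool × Bool, r.1 ≠ b.1 → Bal {r, b} := by decide
lemma bal_a : ∀ u : Bool, Bal {(false, false), (true, u)} := by decide
lemma bal_a' : ∀ u : Bool, Bal {(true, u), (false, false)} := by decide
lemma bal_b : ∀ u : Bool, ¬ Bal {(false, false), (true, u), (false, true)} := by decide
lemma bal_c : ∀ v : Bool, Bal {(true, v), (false, true)} := by decide
lemma bal_d : ∀ u v : Bool, u ≠ v → ¬ Bal {(false, false), (true, u), (true, v)} := by decide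
lemma bal_e : ∀ u v : Bool, u ≠ v → Bal {(false, false), (true, u), (true, v), (false, true)} := by
  decide

lemma pos_left_of_mul {a b : ℝ} (h : 0 < a * b) (hb : 0 < b) : 0 < a := by
  by_contra hcon
  push Not at hcon
  have := mul_nonpos_of_nonpos_of_nonneg hcon hb.le
  linarith

/-- The four gadget coordinates cannot all have second factor `> 1`. -/
lemma Coef.no_red (c : Coef) (hB : 0 < c.B) {p q x1 x2 z1 z2 y1 y2 w1 w2 : ℝ} (hp : 0 < p)
    (hq : 0 < q) (hx1 : 0 < x1) (hx2 : 0 < x2) (hz1 : 0 < z1) (hz2 : 0 < z2)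
    (hy1 : 1 < y1) (hy2 : 1 < y2) (hw1 : 1 < w1) (hw2 : 1 < w2) (hw : w2 ≤ w1)
    (e1 : c.Pos (p * x1 * z1) (q * y1 * w1))
    (e2 : ¬ c.Pos (p * x1 * z1 * x2) (q * y1 * w1 * y2))
    (e3 : ¬ c.Pos (p * z2) (q * w2))
    (e4 : c.Pos (p * z2 * x2) (q * w2 * y2))
    (e5 : ¬ c.Pos (p * x1 * z1 * z2) (q * y1 * w1 * w2))
    (e6 : c.Pos (p * x1 * z1 * z2 * x2) (q * y1 * w1 * w2 * y2)) : False := by
  have hA := c.hA
  have hD := c.hD
  have s2 : ¬ 0 ≤ (q * y1 * w1 - q * w2) * (1 - y2) *
      (c.A * c.C * (y2 * (q * w2) * (q * y1 * w1)) - c.B * c.D) := fun h =>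
    c.exch hB (by positivity) (by positivity) (by positivity) (by positivity) hx2 (by positivity)
      e1 e2 e3 h e4
  have s1 : ¬ 0 ≤ (q * y1 * w1 - q * y1 * w1 * w2) * (1 - y2) *
      (c.A * c.C * (y2 * (q * y1 * w1 * w2) * (q * y1 * w1)) - c.B * c.D) := fun h =>
    c.exch hB (by positivity) (by positivity) (by positivity) (by positivity) hx2 (by positivity)
      e1 e2 e5 h e6
  push Not at s1 s2
  have hqw : q * w2 < q * y1 * w1 := by
    have h1 : q * w2 ≤ q * w1 := by gcongr
    have h2 : q * w1 < q * y1 * w1 := by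
      have : q < q * y1 := by nlinarith
      gcongr
    linarith
  have t2 : c.B * c.D < c.A * c.C * (y2 * (q * w2) * (q * y1 * w1)) := by
    by_contra hcon
    push Not at hcon
    have : 0 ≤ (q * y1 * w1 - q * w2) * (1 - y2) *
      (c.A * c.C * (y2 * (q * w2) * (q * y1 * w1)) - c.B * c.D) :=
      mul_nonneg_of_nonpos_of_nonpos
        (mul_nonpos_of_nonneg_of_nonpos (by linarith) (by linarith)) (by linarith)
    linarith
  have t1 : c.A * c.C * (y2 * (q * y1 * w1 * w2) * (q * y1 * w1)) < c.B * c.D := by
    by_contra hcon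
    push Not at hcon
    have h3 : q * y1 * w1 < q * y1 * w1 * w2 := by
      have : 0 < q * y1 * w1 := by positivity
      nlinarith
    have : 0 ≤ (q * y1 * w1 - q * y1 * w1 * w2) * (1 - y2) *
      (c.A * c.C * (y2 * (q * y1 * w1 * w2) * (q * y1 * w1)) - c.B * c.D) :=
      mul_nonneg (mul_nonneg_of_nonpos_of_nonpos (by linarith) (by linarith)) (by linarith)
    linarith
  have hAC : 0 < c.A * c.C := by
    have h1 : 0 < c.A * c.C * (y2 * (q * w2) * (q * y1 * w1)) := lt_trans (by positivity) t2
    exact pos_left_of_mul h1 (by positivity)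
  have h4 : c.A * c.C * (y2 * (q * w2) * (q * y1 * w1)) ≤
      c.A * c.C * (y2 * (q * y1 * w1 * w2) * (q * y1 * w1)) := by
    have h5 : q * w2 ≤ q * y1 * w1 * w2 := by
      have : 1 ≤ y1 * w1 := by nlinarith
      calc q * w2 = q * 1 * w2 := by ring
        _ ≤ q * (y1 * w1) * w2 := by gcongr
        _ = q * y1 * w1 * w2 := by ring
    gcongr
  linarith

/-- The four gadget coordinates cannot all have second factor `< 1`. -/
lemma Coef.no_blue (c : Coef) (hB : 0 < c.B) {p q x1 x2 z1 z2 y1 y2 w1 w2 : ℝ} (hp : 0 < p)
    (hq : 0 < q) (hx1 : 0 < x1) (hx2 : 0 < x2) (hz1 : 0 < z1) (hz2 : 0 < z2)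
    (hy1 : 0 < y1) (hy2 : 0 < y2) (hw1 : 0 < w1) (hw2 : 0 < w2)
    (hy1' : y1 < 1) (hy2' : y2 < 1) (hw1' : w1 < 1) (hw2' : w2 < 1) (hw : w1 ≤ w2)
    (e0 : c.Pos p q)
    (e1 : c.Pos (p * x1 * z1) (q * y1 * w1))
    (e2 : ¬ c.Pos (p * x1 * z1 * x2) (q * y1 * w1 * y2))
    (e3 : ¬ c.Pos (p * z2) (q * w2))
    (e4 : c.Pos (p * z2 * x2) (q * w2 * y2))
    (e5 : ¬ c.Pos (p * x1) (q * y1))
    (e6 : ¬ c.Pos (p * z1) (q * w1))
    (e7 : c.Pos (p * z1 * x1) (q * w1 * y1)) : False := by
  have hA := c.hA
  have hD := c.hD
  have s2 : ¬ 0 ≤ (q * y1 * w1 - q * w2) * (1 - y2) *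
      (c.A * c.C * (y2 * (q * w2) * (q * y1 * w1)) - c.B * c.D) := fun h =>
    c.exch hB (by positivity) (by positivity) (by positivity) (by positivity) hx2 (by positivity)
      e1 e2 e3 h e4
  have s1 : ¬ 0 ≤ (q - q * w1) * (1 - y1) *
      (c.A * c.C * (y1 * (q * w1) * q) - c.B * c.D) := fun h =>
    c.exch hB hq (by positivity) (by positivity) hp hx1 (by positivity)
      e0 e5 e6 h e7
  push Not at s1 s2
  have hqw : q * y1 * w1 < q * w2 := by
    have h1 : q * w1 ≤ q * w2 := by gcongr
    have h2 : q * y1 * w1 < q * w1 := by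
      have : q * y1 < q := by nlinarith
      gcongr
    linarith
  have t2 : c.B * c.D < c.A * c.C * (y2 * (q * w2) * (q * y1 * w1)) := by
    by_contra hcon
    push Not at hcon
    have : 0 ≤ (q * y1 * w1 - q * w2) * (1 - y2) *
      (c.A * c.C * (y2 * (q * w2) * (q * y1 * w1)) - c.B * c.D) :=
      mul_nonneg_of_nonpos_of_nonpos
        (mul_nonpos_of_nonpos_of_nonneg (by linarith) (by linarith)) (by linarith)
    linarith
  have t1 : c.A * c.C * (y1 * (q * w1) * q) < c.B * c.D := by
    by_contra hcon
    push Not at hcon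
    have h3 : q * w1 < q := by nlinarith
    have : 0 ≤ (q - q * w1) * (1 - y1) *
      (c.A * c.C * (y1 * (q * w1) * q) - c.B * c.D) :=
      mul_nonneg (mul_nonneg (by linarith) (by linarith)) (by linarith)
    linarith
  have hAC : 0 < c.A * c.C := by
    have h1 : 0 < c.A * c.C * (y2 * (q * w2) * (q * y1 * w1)) := lt_trans (by positivity) t2
    exact pos_left_of_mul h1 (by positivity)
  have h4 : c.A * c.C * (y2 * (q * w2) * (q * y1 * w1)) ≤
      c.A * c.C * (y1 * (q * w1) * q) := by
    have h5 : y2 * w2 ≤ 1 := by nlinarith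
    calc c.A * c.C * (y2 * (q * w2) * (q * y1 * w1))
        = c.A * c.C * (q * q * y1 * w1) * (y2 * w2) := by ring
      _ ≤ c.A * c.C * (q * q * y1 * w1) * 1 := by gcongr
      _ = c.A * c.C * (y1 * (q * w1) * q) := by ring
  linarith

/-- The main combinatorial statement in canonical form: if a canonical network with a monotone
answer region realises the labels, then the colouring `Y i < 1` splits every member of the
family. -/
theorem Coef.splits (c : Coef) {V : Type*} [DecidableEq V] {p0 q0 : ℝ} (hp0 : 0 < p0)
    (hq0 : 0 < q0) (X Y : V → ℝ) (hX : ∀ i, 0 < X i) (hY : ∀ i, 0 < Y i)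
    (X' Y' : Bool × Bool → ℝ) (hX' : ∀ i, 0 < X' i) (hY' : ∀ i, 0 < Y' i)
    (S : Finset V) (hne : S.Nonempty)
    (l0 : ∀ y, c.Pos (p0 * ∏ j ∈ y, X' j) (q0 * ∏ j ∈ y, Y' j) ↔ Bal y)
    (l1 : ∀ i ∈ S, ∀ y, ¬ c.Pos (p0 * (∏ j ∈ y, X' j) * X i) (q0 * (∏ j ∈ y, Y' j) * Y i))
    (l2 : ∀ y, c.Pos (p0 * (∏ j ∈ y, X' j) * ∏ i ∈ S, X i) (q0 * (∏ j ∈ y, Y' j) * ∏ i ∈ S, Y i) ↔
      Bal y) :
    (∃ i ∈ S, Y i < 1) ∧ (∃ i ∈ S, ¬ Y i < 1) := by
  -- it suffices to exclude the two monochromatic cases
  have hbase : ∀ y, Bal y → c.Pos (p0 * ∏ j ∈ y, X' j) (q0 * ∏ j ∈ y, Y' j) := fun y h =>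
    (l0 y).2 h
  have hP : ∀ y : Finset (Bool × Bool), 0 < p0 * ∏ j ∈ y, X' j := fun y =>
    mul_pos hp0 (Finset.prod_pos fun i _ => hX' i)
  have hQ : ∀ y : Finset (Bool × Bool), 0 < q0 * ∏ j ∈ y, Y' j := fun y =>
    mul_pos hq0 (Finset.prod_pos fun i _ => hY' i)
  have hPS : 0 < ∏ i ∈ S, X i := Finset.prod_pos fun i _ => hX i
  have hQS : 0 < ∏ i ∈ S, Y i := Finset.prod_pos fun i _ => hY i
  -- the condition we need
  have hblue : ∀ y, Bal y → (c.B ≤ 0 ∨ (0 < c.C ∧ c.B * c.D ≤
      c.A * c.C * ((q0 * ∏ j ∈ y, Y' j) * ((q0 * ∏ j ∈ y, Y' j) * ∏ i ∈ S, Y i)))) →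
      ∃ i ∈ S, ¬ Y i < 1 := by
    intro y hy hc
    by_contra hcon
    push Not at hcon
    exact c.blue (hP y) (hQ y) X Y hX hY S (hbase y hy) (fun i hi => l1 i hi y) hcon hc S
      (Finset.Subset.refl _) hne ((l2 y).2 hy)
  have hred : ∀ y, Bal y → (c.B ≤ 0 ∨ (0 < c.C ∧ c.B * c.D ≤
      c.A * c.C * ((q0 * ∏ j ∈ y, Y' j) * (q0 * ∏ j ∈ y, Y' j)))) →
      ∃ i ∈ S, Y i < 1 := by
    intro y hy hc
    by_contra hcon
    push Not at hcon
    exact c.red (hP y) (hQ y) X Y hX hY S (hbase y hy) (fun i hi => l1 i hi y) hcon hc S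
      (Finset.Subset.refl _) hne ((l2 y).2 hy)
  by_cases hB : c.B ≤ 0
  · exact ⟨hred ∅ (by decide) (Or.inl hB), hblue ∅ (by decide) (Or.inl hB)⟩
  push Not at hB
  -- every gadget coordinate has a strict type
  have htype : ∀ j : Bool × Bool, (X' j < 1 ∧ 1 < Y' j) ∨ (1 < X' j ∧ Y' j < 1) := by
    intro j
    have n0 : ¬ (1 ≤ X' j ∧ 1 ≤ Y' j) := by
      rintro ⟨h1, h2⟩
      have hj : ¬ Bal {j} := bal_single j
      apply hj
      rw [← l0 {j}]
      refine c.mono hp0 hq0 ?_ ?_ (by simpa using (l0 ∅).2 (by decide))
      · simp only [Finset.prod_singleton]; nlinarith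
      · simp only [Finset.prod_singleton]; nlinarith
    have n1 : ¬ (X' j ≤ 1 ∧ Y' j ≤ 1) := by
      rintro ⟨h1, h2⟩
      have hj : ¬ Bal {(!j.1, j.2)} := bal_single _
      have hj' : Bal {j, (!j.1, j.2)} := bal_opp j
      have hne' : j ≠ (!j.1, j.2) := by
        intro h
        have := congrArg Prod.fst h
        simp at this
      apply hj
      rw [← l0 _] at hj' ⊢
      rw [Finset.prod_pair hne', Finset.prod_pair hne'] at hj'
      simp only [Finset.prod_singleton]
      have hx := hX' j
      have hy := hY' j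
      have hx2 := hX' (!j.1, j.2)
      have hy2 := hY' (!j.1, j.2)
      refine c.mono (by positivity) (by positivity) ?_ ?_ hj'
      · apply mul_le_mul_of_nonneg_left _ hp0.le
        nlinarith
      · apply mul_le_mul_of_nonneg_left _ hq0.le
        nlinarith
    have hx1 : X' j < 1 ∨ Y' j < 1 := by
      by_contra h
      push Not at h
      exact n0 h
    have hx2 : 1 < X' j ∨ 1 < Y' j := by
      by_contra h
      push Not at h
      exact n1 h
    rcases hx1 with h | h <;> rcases hx2 with h' | h'
    · linarith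
    · exact Or.inl ⟨h, h'⟩
    · exact Or.inr ⟨h', h⟩
    · linarith
  -- there is a pair on opposite sides with opposite types
  have hpair : ∃ r b : Bool × Bool, r.1 ≠ b.1 ∧ 1 < Y' r ∧ Y' b < 1 := by
    by_contra hcon
    push Not at hcon
    have hmul : ∀ (y : Finset (Bool × Bool)), Bal y →
      c.Pos (p0 * ∏ j ∈ y, X' j) (q0 * ∏ j ∈ y, Y' j) := fun y h => (l0 y).2 h
    have hmul' : ∀ (y : Finset (Bool × Bool)), ¬ Bal y →
      ¬ c.Pos (p0 * ∏ j ∈ y, X' j) (q0 * ∏ j ∈ y, Y' j) := fun y h h' => h ((l0 y).1 h')
    by_cases hc : 1 < Y' (false, false)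
    · -- all are `> 1`
      have a1 : 1 < Y' (true, false) := by
        rcases htype (true, false) with h | h
        · exact h.2
        · exact absurd (hcon (false, false) (true, false) (by decide) hc) (by linarith)
      have a2 : 1 < Y' (true, true) := by
        rcases htype (true, true) with h | h
        · exact h.2
        · exact absurd (hcon (false, false) (true, true) (by decide) hc) (by linarith)
      have a3 : 1 < Y' (false, true) := by
        rcases htype (false, true) with h | h
        · exact h.2
        · exact absurd (hcon (true, false) (false, true) (by decide) a1) (by linarith)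
      have main : ∀ u v : Bool, u ≠ v → Y' (true, v) ≤ Y' (true, u) → False := by
        intro u v huv hle
        have hYu : 1 < Y' (true, u) := by cases u <;> assumption
        have hYv : 1 < Y' (true, v) := by cases v <;> assumption
        refine c.no_red hB (p := p0) (q := q0) (x1 := X' (false, false)) (x2 := X' (false, true))
          (z1 := X' (true, u)) (z2 := X' (true, v)) (y1 := Y' (false, false))
          (y2 := Y' (false, true)) (w1 := Y' (true, u)) (w2 := Y' (true, v))
          hp0 hq0 (hX' _) (hX' _) (hX' _) (hX' _) hc a3 hYu hYv hle ?_ ?_ ?_ ?_ ?_ ?_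
        · have := hmul {(false, false), (true, u)} (bal_a u)
          simpa [Finset.prod_pair, mul_assoc] using this
        · have := hmul' {(false, false), (true, u), (false, true)} (bal_b u)
          rw [Finset.prod_insert (by simp), Finset.prod_pair (by simp),
            Finset.prod_insert (by simp), Finset.prod_pair (by simp)] at this
          simpa [mul_assoc] using this
        · have := hmul' {(true, v)} (bal_single _)
          simpa using this
        · have := hmul {(true, v), (false, true)} (bal_c v)
          simpa [Finset.prod_pair, mul_assoc] using this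
        · have := hmul' {(false, false), (true, u), (true, v)} (bal_d u v huv)
          rw [Finset.prod_insert (by simp), Finset.prod_pair (by simpa using huv),
            Finset.prod_insert (by simp), Finset.prod_pair (by simpa using huv)] at this
          simpa [mul_assoc] using this
        · have := hmul {(false, false), (true, u), (true, v), (false, true)}
            (bal_e u v huv)
          rw [Finset.prod_insert (by simp), Finset.prod_insert (by simpa using huv),
            Finset.prod_pair (by simp),
            Finset.prod_insert (by simp), Finset.prod_insert (by simpa using huv),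
            Finset.prod_pair (by simp)] at this
          simpa [mul_assoc] using this
      rcases le_total (Y' (true, false)) (Y' (true, true)) with h | h
      · exact main true false (by decide) h
      · exact main false true (by decide) h
    · -- all are `< 1`
      have hc' : Y' (false, false) < 1 := by
        rcases htype (false, false) with h | h
        · exact absurd h.2 hc
        · exact h.2
      have a1 : Y' (true, false) < 1 := by
        rcases htype (true, false) with h | h
        · exact absurd (hcon (true, false) (false, false) (by decide) h.2) (by linarith)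
        · exact h.2
      have a2 : Y' (true, true) < 1 := by
        rcases htype (true, true) with h | h
        · exact absurd (hcon (true, true) (false, false) (by decide) h.2) (by linarith)
        · exact h.2
      have a3 : Y' (false, true) < 1 := by
        rcases htype (false, true) with h | h
        · exact absurd (hcon (false, true) (true, false) (by decide) h.2) (by linarith)
        · exact h.2
      have main : ∀ u v : Bool, u ≠ v → Y' (true, u) ≤ Y' (true, v) → False := by
        intro u v huv hle
        have hYu : Y' (true, u) < 1 := by cases u <;> assumption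
        have hYv : Y' (true, v) < 1 := by cases v <;> assumption
        refine c.no_blue hB (p := p0) (q := q0) (x1 := X' (false, false)) (x2 := X' (false, true))
          (z1 := X' (true, u)) (z2 := X' (true, v)) (y1 := Y' (false, false))
          (y2 := Y' (false, true)) (w1 := Y' (true, u)) (w2 := Y' (true, v))
          hp0 hq0 (hX' _) (hX' _) (hX' _) (hX' _) (hY' _) (hY' _) (hY' _) (hY' _)
          hc' a3 hYu hYv hle ?_ ?_ ?_ ?_ ?_ ?_ ?_ ?_
        · have := hmul ∅ (by decide)
          simpa using this
        · have := hmul {(false, false), (true, u)} (bal_a u)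
          simpa [Finset.prod_pair, mul_assoc] using this
        · have := hmul' {(false, false), (true, u), (false, true)} (bal_b u)
          rw [Finset.prod_insert (by simp), Finset.prod_pair (by simp),
            Finset.prod_insert (by simp), Finset.prod_pair (by simp)] at this
          simpa [mul_assoc] using this
        · have := hmul' {(true, v)} (bal_single _)
          simpa using this
        · have := hmul {(true, v), (false, true)} (bal_c v)
          simpa [Finset.prod_pair, mul_assoc] using this
        · have := hmul' {(false, false)} (bal_single _)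
          simpa using this
        · have := hmul' {(true, u)} (bal_single _)
          simpa using this
        · have := hmul {(true, u), (false, false)} (bal_a' u)
          simpa [Finset.prod_pair, mul_assoc] using this
      rcases le_total (Y' (true, false)) (Y' (true, true)) with h | h
      · exact main false true (by decide) h
      · exact main true false (by decide) h
  obtain ⟨r, b, hrb, hr, hb⟩ := hpair
  have hrX : X' r < 1 := by
    rcases htype r with h | h
    · exact h.1
    · linarith
  have hbX : 1 < X' b := by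
    rcases htype b with h | h
    · linarith
    · exact h.1
  have hbal : Bal {r, b} := bal_pair r b hrb
  have hr1 : ¬ Bal {r} := bal_single r
  have hb1 : ¬ Bal {b} := bal_single b
  have hrb' : r ≠ b := fun h => hrb (by rw [h])
  have hXr := hX' r
  have hXb := hX' b
  have hYr := hY' r
  have hYb := hY' b
  -- centre at the base `∅`
  have c0 := c.center hB (p := p0) (q := q0) hp0 hq0 hXr hrX hr hbX hYb hb
    (by simpa using (l0 ∅).2 (by decide))
    (by simpa using mt (l0 {r}).1 hr1)
    (by simpa using mt (l0 {b}).1 hb1)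
    (by simpa [Finset.prod_pair hrb', mul_assoc] using (l0 {r, b}).2 hbal)
  -- centre at the base `S`
  have cS := c.center hB (p := p0 * ∏ i ∈ S, X i) (q := q0 * ∏ i ∈ S, Y i) (by positivity)
    (by positivity) hXr hrX hr hbX hYb hb
    (by simpa using (l2 ∅).2 (by decide))
    (by
      have := mt (l2 {r}).1 hr1
      simp only [Finset.prod_singleton] at this
      rwa [mul_right_comm p0, mul_right_comm q0] at this)
    (by
      have := mt (l2 {b}).1 hb1
      simp only [Finset.prod_singleton] at this
      rwa [mul_right_comm p0, mul_right_comm q0] at this)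
    (by
      have := (l2 {r, b}).2 hbal
      rw [Finset.prod_pair hrb', Finset.prod_pair hrb'] at this
      convert this using 1 <;> ring)
  obtain ⟨hC, c0⟩ := c0
  obtain ⟨_, cS⟩ := cS
  have hA := c.hA
  have hD := c.hD
  have hAC : 0 < c.A * c.C := mul_pos hA hC
  constructor
  · -- the all-`≥ 1` case is impossible
    by_cases hcase : c.B * c.D ≤ c.A * c.C * (q0 * q0)
    · exact hred ∅ (by decide) (Or.inr ⟨hC, by simpa using hcase⟩)
    · refine hred {r, b} hbal (Or.inr ⟨hC, ?_⟩)
      push Not at hcase
      rw [Finset.prod_pair hrb']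
      have h1 : q0 * q0 < q0 * (q0 * Y' r * Y' b) := by
        have := lt_trans hcase c0
        exact lt_of_mul_lt_mul_left this hAC.le
      have h2 : 1 < Y' r * Y' b := by
        by_contra h
        push Not at h
        have : q0 * (q0 * Y' r * Y' b) ≤ q0 * q0 := by
          calc q0 * (q0 * Y' r * Y' b) = q0 * q0 * (Y' r * Y' b) := by ring
            _ ≤ q0 * q0 * 1 := by gcongr
            _ = q0 * q0 := by ring
        linarith
      calc c.B * c.D ≤ c.A * c.C * (q0 * (q0 * Y' r * Y' b)) := c0.le
        _ = c.A * c.C * (q0 * q0 * (Y' r * Y' b)) * 1 := by ring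
        _ ≤ c.A * c.C * (q0 * q0 * (Y' r * Y' b)) * (Y' r * Y' b) := by gcongr
        _ = c.A * c.C * (q0 * (Y' r * Y' b) * (q0 * (Y' r * Y' b))) := by ring
  · -- the all-`< 1` case is impossible
    by_cases hcase : c.B * c.D ≤ c.A * c.C * (q0 * (q0 * ∏ i ∈ S, Y i))
    · exact hblue ∅ (by decide) (Or.inr ⟨hC, by simpa using hcase⟩)
    · refine hblue {r, b} hbal (Or.inr ⟨hC, ?_⟩)
      push Not at hcase
      rw [Finset.prod_pair hrb']
      -- the product of the two centre inequalities
      have h1 : (c.B * c.D) * (c.B * c.D) < (c.A * c.C * (q0 * (q0 * Y' r * Y' b))) *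
          (c.A * c.C * (q0 * (∏ i ∈ S, Y i) * (q0 * (∏ i ∈ S, Y i) * Y' r * Y' b))) :=
        mul_lt_mul'' c0 cS (by positivity) (by positivity)
      by_contra hcon
      push Not at hcon
      have h2 : (c.A * c.C * (q0 * (q0 * ∏ i ∈ S, Y i))) *
          (c.A * c.C * (q0 * (Y' r * Y' b) * (q0 * (Y' r * Y' b) * ∏ i ∈ S, Y i))) <
          (c.B * c.D) * (c.B * c.D) :=
        mul_lt_mul'' hcase hcon (by positivity) (by positivity)
      have h3 : (c.A * c.C * (q0 * (q0 * ∏ i ∈ S, Y i))) *
          (c.A * c.C * (q0 * (Y' r * Y' b) * (q0 * (Y' r * Y' b) * ∏ i ∈ S, Y i))) =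
          (c.A * c.C * (q0 * (q0 * Y' r * Y' b))) *
          (c.A * c.C * (q0 * (∏ i ∈ S, Y i) * (q0 * (∏ i ∈ S, Y i) * Y' r * Y' b))) := by ring
      linarith

end Pool.Agent.Helper81_Load
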