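import Mathlib
import Pool.Agent.Helper81_Load.Gadget

/-!
From an actual network `c₀ + c₁ σ(u) + c₂ σ(v) ≥ 0` to the canonical form.
-/

namespace Pool.Agent.Helper81_Load

open Finset Real

lemma sigmoid_eq (u : ℝ) : Real.sigmoid u = Real.exp u / (1 + Real.exp u) := by
  rw [Real.sigmoid_def, Real.exp_neg]
  have := Real.exp_pos u
  field_simp
  ring

/-- Canonical form, nonnegative outer weights, `¬ (c₀ + c₁ ≤ 0 < c₀ + c₂)`. -/
lemma coef_of_nonneg {c0 c1 c2 : ℝ} (h1 : 0 ≤ c1) (h2 : 0 ≤ c2) (h0 : c0 < 0)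
    (hs : 0 < c0 + c1 + c2) (hc : 0 < c0 + c1 ∨ (c0 + c1 ≤ 0 ∧ c0 + c2 ≤ 0)) :
    ∃ c : Coef, ∀ u v : ℝ, (0 ≤ c0 + c1 * Real.sigmoid u + c2 * Real.sigmoid v) ↔
      c.Pos (Real.exp u) (Real.exp v) := by
  refine ⟨⟨c0 + c1 + c2, c0 + c1, -(c0 + c2), -c0, hs, by linarith, ?_, ?_⟩, ?_⟩
  · have : 0 ≤ c1 * c2 := mul_nonneg h1 h2
    nlinarith
  · rcases hc with h | h
    · exact Or.inl h
    · exact Or.inr ⟨h.1, by linarith [h.2]⟩
  · intro u v
    simp only [Coef.Pos]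
    have hu := Real.exp_pos u
    have hv := Real.exp_pos v
    rw [sigmoid_eq, sigmoid_eq]
    set p := Real.exp u
    set q := Real.exp v
    have e : c0 + c1 * (p / (1 + p)) + c2 * (q / (1 + q)) =
        (p * ((c0 + c1 + c2) * q + (c0 + c1)) - (-(c0 + c2) * q + -c0)) / ((1 + p) * (1 + q)) := by
      field_simp
      ring
    rw [e, le_div_iff₀ (by positivity), zero_mul]
    constructor <;> intro h <;> linarith

/-- Canonical form of a non-constant network: the inner activations are permuted and their signs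
changed. -/
lemma exists_coef {c0 c1 c2 : ℝ} (hneg : ∃ u v : ℝ,
      c0 + c1 * Real.sigmoid u + c2 * Real.sigmoid v < 0)
    (hpos : ∃ u v : ℝ, 0 ≤ c0 + c1 * Real.sigmoid u + c2 * Real.sigmoid v) :
    ∃ (c : Coef) (r s r' s' : ℝ), ∀ u v : ℝ,
      (0 ≤ c0 + c1 * Real.sigmoid u + c2 * Real.sigmoid v) ↔
      c.Pos (Real.exp (r * u + s * v)) (Real.exp (r' * u + s' * v)) := by
  -- nonnegative outer weights
  have main : ∀ c0 c1 c2 : ℝ, 0 ≤ c1 → 0 ≤ c2 →
      (∃ u v : ℝ, c0 + c1 * Real.sigmoid u + c2 * Real.sigmoid v < 0) →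
      (∃ u v : ℝ, 0 ≤ c0 + c1 * Real.sigmoid u + c2 * Real.sigmoid v) →
      ∃ (c : Coef) (r s r' s' : ℝ), ∀ u v : ℝ,
      (0 ≤ c0 + c1 * Real.sigmoid u + c2 * Real.sigmoid v) ↔
      c.Pos (Real.exp (r * u + s * v)) (Real.exp (r' * u + s' * v)) := by
    intro c0 c1 c2 h1 h2 ⟨u, v, huv⟩ ⟨u', v', huv'⟩
    have hc0 : c0 < 0 := by
      have := mul_nonneg h1 (Real.sigmoid_nonneg u)
      have := mul_nonneg h2 (Real.sigmoid_nonneg v)
      linarith
    have hs : 0 < c0 + c1 + c2 := by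
      have a1 : c1 * Real.sigmoid u' ≤ c1 := by
        have := Real.sigmoid_le_one u'
        nlinarith
      have a2 : c2 * Real.sigmoid v' ≤ c2 := by
        have := Real.sigmoid_le_one v'
        nlinarith
      rcases h1.lt_or_eq with h | h
      · have := Real.sigmoid_lt_one u'
        have a1 : c1 * Real.sigmoid u' < c1 := by nlinarith
        linarith
      · rcases h2.lt_or_eq with h' | h'
        · have := Real.sigmoid_lt_one v'
          have a1 : c2 * Real.sigmoid v' < c2 := by nlinarith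
          linarith
        · rw [← h, ← h'] at huv'
          linarith
    by_cases hc : 0 < c0 + c1 ∨ (c0 + c1 ≤ 0 ∧ c0 + c2 ≤ 0)
    · obtain ⟨c, hc⟩ := coef_of_nonneg h1 h2 hc0 hs hc
      refine ⟨c, 1, 0, 0, 1, fun u v => ?_⟩
      rw [hc u v]
      simp
    · push Not at hc
      obtain ⟨c, hc⟩ := coef_of_nonneg h2 h1 hc0 (by linarith) (Or.inl (hc.2 hc.1))
      refine ⟨c, 0, 1, 1, 0, fun u v => ?_⟩
      rw [show c0 + c1 * Real.sigmoid u + c2 * Real.sigmoid v =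
        c0 + c2 * Real.sigmoid v + c1 * Real.sigmoid u by ring, hc v u]
      simp
  have hflip : ∀ c u : ℝ, c * Real.sigmoid u = c + (-c) * Real.sigmoid (-u) := by
    intro c u
    rw [Real.sigmoid_neg]
    ring
  rcases le_total 0 c1 with h1 | h1 <;> rcases le_total 0 c2 with h2 | h2
  · exact main c0 c1 c2 h1 h2 hneg hpos
  · have e : ∀ u v : ℝ, c0 + c1 * Real.sigmoid u + c2 * Real.sigmoid v =
      (c0 + c2) + c1 * Real.sigmoid u + (-c2) * Real.sigmoid (-v) := fun u v => by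
      rw [hflip c2 v]; ring
    obtain ⟨c, r, s, r', s', h⟩ := main (c0 + c2) c1 (-c2) h1 (by linarith)
      (by obtain ⟨u, v, h⟩ := hneg; exact ⟨u, -v, by rwa [← e]⟩)
      (by obtain ⟨u, v, h⟩ := hpos; exact ⟨u, -v, by rwa [← e]⟩)
    refine ⟨c, r, -s, r', -s', fun u v => ?_⟩
    rw [e, h]
    simp
  · have e : ∀ u v : ℝ, c0 + c1 * Real.sigmoid u + c2 * Real.sigmoid v =
      (c0 + c1) + (-c1) * Real.sigmoid (-u) + c2 * Real.sigmoid v := fun u v => by
      rw [hflip c1 u]; ring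
    obtain ⟨c, r, s, r', s', h⟩ := main (c0 + c1) (-c1) c2 (by linarith) h2
      (by obtain ⟨u, v, h⟩ := hneg; exact ⟨-u, v, by rwa [← e]⟩)
      (by obtain ⟨u, v, h⟩ := hpos; exact ⟨-u, v, by rwa [← e]⟩)
    refine ⟨c, -r, s, -r', s', fun u v => ?_⟩
    rw [e, h]
    simp
  · have e : ∀ u v : ℝ, c0 + c1 * Real.sigmoid u + c2 * Real.sigmoid v =
      (c0 + c1 + c2) + (-c1) * Real.sigmoid (-u) + (-c2) * Real.sigmoid (-v) := fun u v => by
      rw [hflip c1 u, hflip c2 v]; ring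
    obtain ⟨c, r, s, r', s', h⟩ := main (c0 + c1 + c2) (-c1) (-c2) (by linarith) (by linarith)
      (by obtain ⟨u, v, h⟩ := hneg; exact ⟨-u, -v, by rwa [← e]⟩)
      (by obtain ⟨u, v, h⟩ := hpos; exact ⟨-u, -v, by rwa [← e]⟩)
    refine ⟨c, -r, -s, -r', -s', fun u v => ?_⟩
    rw [e, h]
    simp

/-- The value of the outer activation on a set `x` of main coordinates and a set `y` of gadget
coordinates. -/
noncomputable def val {V : Type*} (a1 a2 : V → ℝ) (a1' a2' : Bool × Bool → ℝ) (b1 b2 c0 c1 c2 : ℝ)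
    (x : Finset V) (y : Finset (Bool × Bool)) : ℝ :=
  c0 + c1 * Real.sigmoid (∑ i ∈ x, a1 i + ∑ j ∈ y, a1' j + b1) +
    c2 * Real.sigmoid (∑ i ∈ x, a2 i + ∑ j ∈ y, a2' j + b2)

/-- Hard direction: a network that realises the labels gives a splitting colouring. -/
theorem splits_of_val {V : Type*} [DecidableEq V] (a1 a2 : V → ℝ)
    (a1' a2' : Bool × Bool → ℝ) (b1 b2 c0 c1 c2 : ℝ) (𝒮 : Set (Finset V))
    (hne : ∀ S ∈ 𝒮, S.Nonempty)
    (l0 : ∀ y, 0 ≤ val a1 a2 a1' a2' b1 b2 c0 c1 c2 ∅ y ↔ Bal y)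
    (l1 : ∀ i y, ¬ 0 ≤ val a1 a2 a1' a2' b1 b2 c0 c1 c2 {i} y)
    (l2 : ∀ S ∈ 𝒮, ∀ y, 0 ≤ val a1 a2 a1' a2' b1 b2 c0 c1 c2 S y ↔ Bal y) :
    ∃ χ : V → Prop, ∀ S ∈ 𝒮, (∃ i ∈ S, χ i) ∧ (∃ i ∈ S, ¬ χ i) := by
  obtain ⟨c, r, s, r', s', hc⟩ := exists_coef (c0 := c0) (c1 := c1) (c2 := c2)
    (by
      have := mt (l0 {(false, false)}).1 (bal_single _)
      push Not at this
      exact ⟨_, _, this⟩)
    (by
      have := (l0 ∅).2 bal_empty
      exact ⟨_, _, this⟩)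
  have hval : ∀ (x : Finset V) (y : Finset (Bool × Bool)),
      0 ≤ val a1 a2 a1' a2' b1 b2 c0 c1 c2 x y ↔
      c.Pos (Real.exp (r * b1 + s * b2) * (∏ j ∈ y, Real.exp (r * a1' j + s * a2' j)) *
          ∏ i ∈ x, Real.exp (r * a1 i + s * a2 i))
        (Real.exp (r' * b1 + s' * b2) * (∏ j ∈ y, Real.exp (r' * a1' j + s' * a2' j)) *
          ∏ i ∈ x, Real.exp (r' * a1 i + s' * a2 i)) := by
    intro x y
    rw [val, hc, ← Real.exp_sum, ← Real.exp_sum, ← Real.exp_sum, ← Real.exp_sum, ← Real.exp_add,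
      ← Real.exp_add, ← Real.exp_add, ← Real.exp_add]
    simp only [Finset.sum_add_distrib, ← Finset.mul_sum]
    ring_nf
  refine ⟨fun i => Real.exp (r' * a1 i + s' * a2 i) < 1, fun S hS => ?_⟩
  refine c.splits (Real.exp_pos (r * b1 + s * b2)) (Real.exp_pos (r' * b1 + s' * b2)) (fun i => Real.exp (r * a1 i + s * a2 i))
    (fun i => Real.exp (r' * a1 i + s' * a2 i)) (fun i => Real.exp_pos _) (fun i => Real.exp_pos _)
    (fun j => Real.exp (r * a1' j + s * a2' j)) (fun j => Real.exp (r' * a1' j + s' * a2' j))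
    (fun i => Real.exp_pos _) (fun i => Real.exp_pos _) S (hne S hS) ?_ ?_ ?_
  · intro y
    rw [← l0 y, hval]
    simp
  · intro i _ y
    have := l1 i y
    rw [hval] at this
    simpa using this
  · intro y
    rw [← l2 S hS y, hval]

/-- Signed size of a set of gadget coordinates. -/
def sgn (j : Bool × Bool) : ℤ := if j.1 then -1 else 1

lemma bal_iff_sum : ∀ y : Finset (Bool × Bool), Bal y ↔ ∑ j ∈ y, sgn j = 0 := by decide

/-- Easy direction: explicit weights from a splitting colouring. -/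
theorem val_of_splits {V : Type*} [Fintype V] [DecidableEq V] (𝒮 : Set (Finset V))
    (χ : V → Bool) (hχ : ∀ S ∈ 𝒮, (∃ i ∈ S, χ i = true) ∧ (∃ i ∈ S, χ i = false)) :
    ∃ (a1 a2 : V → ℝ) (a1' a2' : Bool × Bool → ℝ),
    (∀ y, 0 ≤ val a1 a2 a1' a2' 2 2 (-3 / 2) 1 1 ∅ y ↔ Bal y) ∧
    (∀ i y, ¬ 0 ≤ val a1 a2 a1' a2' 2 2 (-3 / 2) 1 1 {i} y) ∧
    (∀ S ∈ 𝒮, ∀ y, 0 ≤ val a1 a2 a1' a2' 2 2 (-3 / 2) 1 1 S y ↔ Bal y) := by
  set m : ℤ := ((Fintype.card V : ℕ) : ℤ) with hm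
  have hm0 : 0 ≤ m := by positivity
  -- integer weights
  set w1 : V → ℤ := fun i => if χ i then -1 else m with hw1
  set w2 : V → ℤ := fun i => if χ i then m else -1 with hw2
  set M : ℤ := m * m + m + 1 with hM
  have key : ∀ (x : Finset V) (y : Finset (Bool × Bool)),
      (0 ≤ val (fun i => 4 * (w1 i : ℝ)) (fun i => 4 * (w2 i : ℝ))
        (fun j => 4 * ((-M * sgn j : ℤ) : ℝ)) (fun j => 4 * ((M * sgn j : ℤ) : ℝ))
        2 2 (-3 / 2) 1 1 x y) ↔
      (0 ≤ ∑ i ∈ x, w1 i - M * ∑ j ∈ y, sgn j ∧ 0 ≤ ∑ i ∈ x, w2 i + M * ∑ j ∈ y, sgn j) := by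
    intro x y
    have e1 : ∑ i ∈ x, 4 * (w1 i : ℝ) + ∑ j ∈ y, 4 * ((-M * sgn j : ℤ) : ℝ) + 2 =
        4 * ((∑ i ∈ x, w1 i - M * ∑ j ∈ y, sgn j : ℤ) : ℝ) + 2 := by
      rw [← Finset.mul_sum, ← Finset.mul_sum]
      push_cast
      simp only [neg_mul, Finset.sum_neg_distrib, ← Finset.mul_sum]
      ring
    have e2 : ∑ i ∈ x, 4 * (w2 i : ℝ) + ∑ j ∈ y, 4 * ((M * sgn j : ℤ) : ℝ) + 2 =
        4 * ((∑ i ∈ x, w2 i + M * ∑ j ∈ y, sgn j : ℤ) : ℝ) + 2 := by
      rw [← Finset.mul_sum, ← Finset.mul_sum]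
      push_cast
      simp only [← Finset.mul_sum]
      ring
    simp only [val]
    rw [e1, e2]
    set U : ℤ := ∑ i ∈ x, w1 i - M * ∑ j ∈ y, sgn j
    set W : ℤ := ∑ i ∈ x, w2 i + M * ∑ j ∈ y, sgn j
    have hexp : (3 : ℝ) ≤ Real.exp 2 := by
      have := Real.add_one_le_exp (2 : ℝ)
      linarith
    have hs2 : (3 : ℝ) / 4 ≤ Real.sigmoid 2 := by
      rw [sigmoid_eq, div_le_div_iff₀ (by norm_num) (by positivity)]
      linarith
    have hs2' : Real.sigmoid (-2) ≤ 1 / 4 := by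
      rw [Real.sigmoid_neg]
      linarith
    constructor
    · intro h
      constructor
      · by_contra hU
        push Not at hU
        have hU' : (U : ℝ) ≤ -1 := by exact_mod_cast (show U ≤ -1 by omega)
        have h1 : Real.sigmoid (4 * (U : ℝ) + 2) ≤ 1 / 4 :=
          (Real.sigmoid_le (by linarith)).trans hs2'
        have h2 := Real.sigmoid_lt_one (4 * (W : ℝ) + 2)
        linarith
      · by_contra hU
        push Not at hU
        have hU' : (W : ℝ) ≤ -1 := by exact_mod_cast (show W ≤ -1 by omega)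
        have h1 : Real.sigmoid (4 * (W : ℝ) + 2) ≤ 1 / 4 :=
          (Real.sigmoid_le (by linarith)).trans hs2'
        have h2 := Real.sigmoid_lt_one (4 * (U : ℝ) + 2)
        linarith
    · rintro ⟨hU, hW⟩
      have hU' : (0 : ℝ) ≤ U := by exact_mod_cast hU
      have hW' : (0 : ℝ) ≤ W := by exact_mod_cast hW
      have h1 : (3 : ℝ) / 4 ≤ Real.sigmoid (4 * (U : ℝ) + 2) :=
        hs2.trans (Real.sigmoid_le (by linarith))
      have h2 : (3 : ℝ) / 4 ≤ Real.sigmoid (4 * (W : ℝ) + 2) :=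
        hs2.trans (Real.sigmoid_le (by linarith))
      linarith
  -- bounds on the integer weights
  have hcard : ∀ x : Finset V, (x.card : ℤ) ≤ m := fun x => by
    rw [hm]; exact_mod_cast Finset.card_le_univ x
  have hw1le : ∀ i, w1 i ≤ m := fun i => by
    simp only [hw1]; split_ifs <;> omega
  have hw2le : ∀ i, w2 i ≤ m := fun i => by
    simp only [hw2]; split_ifs <;> omega
  have hw1ge : ∀ i, -1 ≤ w1 i := fun i => by
    simp only [hw1]; split_ifs <;> omega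
  have hw2ge : ∀ i, -1 ≤ w2 i := fun i => by
    simp only [hw2]; split_ifs <;> omega
  have hub1 : ∀ x : Finset V, ∑ i ∈ x, w1 i < M := fun x => by
    have h1 : ∑ i ∈ x, w1 i ≤ ∑ i ∈ x, m := Finset.sum_le_sum fun i _ => hw1le i
    rw [Finset.sum_const, nsmul_eq_mul] at h1
    have h2 := hcard x
    have h3 : (x.card : ℤ) * m ≤ m * m := mul_le_mul_of_nonneg_right h2 hm0
    rw [hM]; linarith
  have hub2 : ∀ x : Finset V, ∑ i ∈ x, w2 i < M := fun x => by
    have h1 : ∑ i ∈ x, w2 i ≤ ∑ i ∈ x, m := Finset.sum_le_sum fun i _ => hw2le i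
    rw [Finset.sum_const, nsmul_eq_mul] at h1
    have h2 := hcard x
    have h3 : (x.card : ℤ) * m ≤ m * m := mul_le_mul_of_nonneg_right h2 hm0
    rw [hM]; linarith
  have hMpos : 0 < M := by rw [hM]; positivity
  refine ⟨fun i => 4 * (w1 i : ℝ), fun i => 4 * (w2 i : ℝ), fun j => 4 * ((-M * sgn j : ℤ) : ℝ),
    fun j => 4 * ((M * sgn j : ℤ) : ℝ), ?_, ?_, ?_⟩
  · intro y
    rw [key, bal_iff_sum]
    simp only [Finset.sum_empty, zero_sub, zero_add, Left.nonneg_neg_iff]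
    constructor
    · rintro ⟨h1, h2⟩
      by_contra hne
      rcases lt_or_gt_of_ne hne with h | h
      · have : M * ∑ j ∈ y, sgn j < 0 := mul_neg_of_pos_of_neg hMpos h
        linarith
      · have : 0 < M * ∑ j ∈ y, sgn j := mul_pos hMpos h
        linarith
    · intro h
      rw [h]
      simp
  · intro i y
    rw [key]
    simp only [Finset.sum_singleton]
    rintro ⟨h1, h2⟩
    rcases lt_trichotomy (∑ j ∈ y, sgn j) 0 with h | h | h
    · have : M * ∑ j ∈ y, sgn j ≤ M * (-1) := mul_le_mul_of_nonneg_left (by omega) hMpos.le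
      have := hw2le i
      rw [hM] at *
      nlinarith
    · rw [h] at h1 h2
      simp only [hw1, hw2, mul_zero, sub_zero, add_zero] at h1 h2
      split_ifs at h1 h2 <;> omega
    · have : M * 1 ≤ M * ∑ j ∈ y, sgn j := mul_le_mul_of_nonneg_left (by omega) hMpos.le
      have := hw1le i
      rw [hM] at *
      nlinarith
  · intro S hS y
    rw [key, bal_iff_sum]
    obtain ⟨⟨i, hi, hiχ⟩, ⟨j, hj, hjχ⟩⟩ := hχ S hS
    have hlow : ∀ (w : V → ℤ) (k : V), k ∈ S → w k = m → (∀ i, -1 ≤ w i) → 0 ≤ ∑ i ∈ S, w i := by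
      intro w k hk hwk hge
      rw [← Finset.add_sum_erase S w hk, hwk]
      have h1 : ∑ i ∈ S.erase k, (-1 : ℤ) ≤ ∑ i ∈ S.erase k, w i :=
        Finset.sum_le_sum fun i _ => hge i
      rw [Finset.sum_const, nsmul_eq_mul] at h1
      have h2 := hcard (S.erase k)
      linarith
    have l1 : 0 ≤ ∑ i ∈ S, w1 i := hlow w1 j hj (by simp [hw1, hjχ]) hw1ge
    have l2 : 0 ≤ ∑ i ∈ S, w2 i := hlow w2 i hi (by simp [hw2, hiχ]) hw2ge
    have u1 := hub1 S
    have u2 := hub2 S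
    constructor
    · rintro ⟨h1, h2⟩
      by_contra hne
      rcases lt_or_gt_of_ne hne with h | h
      · have : M * ∑ j ∈ y, sgn j ≤ M * (-1) := mul_le_mul_of_nonneg_left (by omega) hMpos.le
        linarith
      · have : M * 1 ≤ M * ∑ j ∈ y, sgn j := mul_le_mul_of_nonneg_left (by omega) hMpos.le
        linarith
    · intro h
      rw [h]
      simp only [mul_zero, sub_zero, add_zero]
      exact ⟨l1, l2⟩

end Pool.Agent.Helper81_Load
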