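import Mathlib
import Pool.Agent.Helper81_Load.Network
import Pool.Agent.Helper81_Load.Defs

/-!
Loadability of the hypergraph instance is 2-colourability.
-/

namespace Pool.Agent.Helper81_Load

open Finset

lemma mem_quads : ∀ y : Fin 4 → Bool, y ∈ quads := by decide

/-- The gadget coordinate `(side, copy)` as an index in `Fin 4`. -/
def gi (j : Bool × Bool) : Fin 4 := ⟨2 * j.1.toNat + j.2.toNat, by cases j.1 <;> cases j.2 <;> decide⟩

/-- The vector of a set of gadget coordinates. -/
def yvec (y : Finset (Bool × Bool)) : Fin 4 → Bool := fun i =>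
  decide ((decide (2 ≤ i.val), decide (i.val % 2 = 1)) ∈ y)

lemma balanced_yvec : ∀ y : Finset (Bool × Bool), balanced (yvec y) = true ↔ Bal y := by decide

lemma yvec_surj : ∀ y : Fin 4 → Bool, ∃ s : Finset (Bool × Bool), yvec s = y := by decide

lemma yvec_gi : ∀ (y : Finset (Bool × Bool)) (j : Bool × Bool), yvec y (gi j) = true ↔ j ∈ y := by
  decide

lemma sum_gi (f : Fin 4 → ℝ) : ∑ i, f i = ∑ j : Bool × Bool, f (gi j) := by
  simp [Fin.sum_univ_four, Fintype.sum_prod_type, gi]
  ring

lemma dot_append {m : ℕ} (a : Fin (m + 4) → ℝ) (x : Fin m → Bool) (y : Finset (Bool × Bool)) :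
    dot a (Fin.append x (yvec y)) =
      ∑ i ∈ univ.filter (fun i => x i = true), a (Fin.castAdd 4 i) +
      ∑ j ∈ y, a (Fin.natAdd m (gi j)) := by
  rw [dot, Fin.sum_univ_add]
  congr 1
  · rw [Finset.sum_filter]
    apply Finset.sum_congr rfl
    intro i _
    simp only [Fin.append_left]
    split_ifs <;> simp
  · rw [sum_gi, ← Finset.sum_filter_add_sum_filter_not univ (fun j => j ∈ y)]
    have h1 : ∑ j ∈ univ.filter (fun j => j ∈ y), a (Fin.natAdd m (gi j)) *
        (if Fin.append x (yvec y) (Fin.natAdd m (gi j)) = true then 1 else 0) =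
        ∑ j ∈ y, a (Fin.natAdd m (gi j)) := by
      have : univ.filter (fun j => j ∈ y) = y := by ext; simp
      rw [this]
      apply Finset.sum_congr rfl
      intro j hj
      rw [Fin.append_right, if_pos ((yvec_gi y j).2 hj), mul_one]
    have h2 : ∑ j ∈ univ.filter (fun j => ¬ j ∈ y), a (Fin.natAdd m (gi j)) *
        (if Fin.append x (yvec y) (Fin.natAdd m (gi j)) = true then 1 else 0) = 0 := by
      apply Finset.sum_eq_zero
      intro j hj
      rw [Finset.mem_filter] at hj
      rw [Fin.append_right, if_neg (fun h => hj.2 ((yvec_gi y j).1 h)), mul_zero]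
    rw [h1, h2, add_zero]

/-- The set with a given characteristic vector. -/
def supp {m : ℕ} (x : Fin m → Bool) : Finset (Fin m) := univ.filter fun i => x i = true

lemma output_eq {m : ℕ} (N : Net (m + 4)) (x : Fin m → Bool) (y : Finset (Bool × Bool)) :
    N.output (Fin.append x (yvec y)) = true ↔
    0 ≤ val (fun i => N.a₁ (Fin.castAdd 4 i)) (fun i => N.a₂ (Fin.castAdd 4 i))
      (fun j => N.a₁ (Fin.natAdd m (gi j))) (fun j => N.a₂ (Fin.natAdd m (gi j)))
      N.b₁ N.b₂ N.c₀ N.c₁ N.c₂ (supp x) y := by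
  rw [Net.output, eta, dot_append, dot_append, val, decide_eq_true_iff]
  rfl

lemma mem_ofHypergraph {m : ℕ} {P : List (Fin m → Bool)} (N : Net (m + 4)) :
    (∀ e ∈ exampleList m P, N.output e.1 = e.2) ↔
    (∀ y, N.output (Fin.append (fun _ => false) (yvec y)) = true ↔ Bal y) ∧
    (∀ i y, ¬ N.output (Fin.append (fun j => decide (j = i)) (yvec y)) = true) ∧
    (∀ x ∈ P, ∀ y, N.output (Fin.append x (yvec y)) = true ↔ Bal y) := by
  have hb : ∀ (b : Bool) (y : Finset (Bool × Bool)), (b = true ↔ Bal y) ↔ b = balanced (yvec y) := by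
    intro b y
    rw [← balanced_yvec]
    cases b <;> cases balanced (yvec y) <;> simp
  simp only [hb]
  simp only [exampleList, List.mem_append, List.mem_flatMap, List.mem_cons, List.mem_map,
    List.mem_finRange, true_and]
  constructor
  · intro h
    refine ⟨fun y => ?_, fun i y => ?_, fun x hx y => ?_⟩
    · exact h (_, _) (Or.inl ⟨_, Or.inl rfl, yvec y, mem_quads _, rfl⟩)
    · have := h (_, _) (Or.inr ⟨i, yvec y, mem_quads _, rfl⟩)
      simp only at this
      rw [this]
      simp
    · exact h (_, _) (Or.inl ⟨x, Or.inr hx, yvec y, mem_quads _, rfl⟩)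
  · rintro ⟨h0, h1, h2⟩ e he
    rcases he with ⟨x, hx, y, _, rfl⟩ | ⟨i, y, _, rfl⟩
    · obtain ⟨s, rfl⟩ := yvec_surj y
      rcases hx with rfl | hx
      · exact h0 s
      · exact h2 x hx s
    · obtain ⟨s, rfl⟩ := yvec_surj y
      have := h1 i s
      simpa using this

/-- Loadability of the hypergraph instance is 2-colourability of the hypergraph. -/
theorem loadable_list {m : ℕ} {P : List (Fin m → Bool)} (hP : ∀ x ∈ P, ∃ i, x i = true) :
    (∃ N : Net (m + 4), ∀ e ∈ exampleList m P, N.output e.1 = e.2) ↔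
    ∃ χ : Fin m → Bool, ∀ x ∈ P, (∃ i, x i = true ∧ χ i = true) ∧ (∃ i, x i = true ∧ χ i = false) := by
  classical
  constructor
  · rintro ⟨N, hN⟩
    obtain ⟨h0, h1, h2⟩ := (mem_ofHypergraph (P := P) N).1 hN
    obtain ⟨χ, hχ⟩ := splits_of_val (fun i => N.a₁ (Fin.castAdd 4 i)) (fun i => N.a₂ (Fin.castAdd 4 i))
      (fun j => N.a₁ (Fin.natAdd m (gi j))) (fun j => N.a₂ (Fin.natAdd m (gi j)))
      N.b₁ N.b₂ N.c₀ N.c₁ N.c₂ {S | ∃ x ∈ P, S = supp x}
      (by
        rintro S ⟨x, hx, rfl⟩
        obtain ⟨i, hi⟩ := hP x hx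
        exact ⟨i, by simp [supp, hi]⟩)
      (by
        intro y
        rw [← h0 y, output_eq]
        simp [supp])
      (by
        intro i y
        have := h1 i y
        rw [output_eq] at this
        have e : supp (fun j => decide (j = i)) = {i} := by ext; simp [supp]
        rwa [e] at this)
      (by
        rintro S ⟨x, hx, rfl⟩ y
        rw [← h2 x hx y, output_eq])
    refine ⟨fun i => decide (χ i), fun x hx => ?_⟩
    obtain ⟨⟨i, hi, hi'⟩, ⟨j, hj, hj'⟩⟩ := hχ (supp x) ⟨x, hx, rfl⟩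
    simp only [supp, Finset.mem_filter, Finset.mem_univ, true_and] at hi hj
    exact ⟨⟨i, hi, by simpa using hi'⟩, ⟨j, hj, by simpa using hj'⟩⟩
  · rintro ⟨χ, hχ⟩
    obtain ⟨a1, a2, a1', a2', h0, h1, h2⟩ := val_of_splits {S | ∃ x ∈ P, S = supp x} χ (by
      rintro S ⟨x, hx, rfl⟩
      obtain ⟨⟨i, hi, hi'⟩, ⟨j, hj, hj'⟩⟩ := hχ x hx
      exact ⟨⟨i, by simpa [supp] using hi, hi'⟩, ⟨j, by simpa [supp] using hj, hj'⟩⟩)
    have hgi : ∀ j : Bool × Bool, ((decide (2 ≤ (gi j).val), decide ((gi j).val % 2 = 1)) :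
        Bool × Bool) = j := by decide
    let N : Net (m + 4) := ⟨Fin.append a1 (fun i => a1' (decide (2 ≤ i.val), decide (i.val % 2 = 1))),
      Fin.append a2 (fun i => a2' (decide (2 ≤ i.val), decide (i.val % 2 = 1))), 2, 2, -3 / 2, 1, 1⟩
    have hout : ∀ (x : Fin m → Bool) (y : Finset (Bool × Bool)),
        N.output (Fin.append x (yvec y)) = true ↔
        0 ≤ val a1 a2 a1' a2' 2 2 (-3 / 2) 1 1 (supp x) y := by
      intro x y
      rw [output_eq]
      simp only [N, Fin.append_left, Fin.append_right, hgi]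
    refine ⟨N, (mem_ofHypergraph (P := P) N).2 ⟨?_, ?_, ?_⟩⟩
    · intro y
      rw [hout, ← h0 y]
      simp [supp]
    · intro i y
      rw [hout]
      have e : supp (fun j => decide (j = i)) = {i} := by ext; simp [supp]
      rw [e]
      exact h1 i y
    · intro x hx y
      rw [hout]
      exact h2 _ ⟨x, hx, rfl⟩ y

/-- Loadability of the hypergraph instance is 2-colourability of the hypergraph. -/
theorem loadable_ofHypergraph {m : ℕ} {P : List (Fin m → Bool)} (hP : ∀ x ∈ P, ∃ i, x i = true) :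
    Loadable (ofHypergraph m P) ↔
    ∃ χ : Fin m → Bool, ∀ x ∈ P, (∃ i, x i = true ∧ χ i = true) ∧ (∃ i, x i = true ∧ χ i = false) :=
  loadable_list hP

/-- The reduction from satisfiability is correct. -/
theorem satisfiable_iff_loadable (φ : CNF) : φ.Satisfiable ↔ Loadable φ.toInstance := by
  rw [CNF.toInstance, loadable_ofHypergraph]
  swap
  · intro x hx
    simp only [CNF.edges, List.mem_append, List.mem_map, List.mem_finRange, true_and] at hx
    rcases hx with ⟨i, rfl⟩ | ⟨C, _, rfl⟩
    · exact ⟨⟨2 * i.val, by omega⟩, by simp⟩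
    · exact ⟨⟨2 * φ.n, by omega⟩, by simp⟩
  constructor
  · rintro ⟨v, hv⟩
    refine ⟨fun j => if h : j.val / 2 < φ.n then
      decide (v ⟨j.val / 2, h⟩ = decide (j.val % 2 = 1)) else false, fun x hx => ?_⟩
    simp only [CNF.edges, List.mem_append, List.mem_map, List.mem_finRange, true_and] at hx
    rcases hx with ⟨i, rfl⟩ | ⟨C, hC, rfl⟩
    · have hi := i.2
      cases hvi : v i
      · refine ⟨⟨⟨2 * i.val, by omega⟩, by simp, ?_⟩, ⟨⟨2 * i.val + 1, by omega⟩, ?_, ?_⟩⟩
        · simp [hvi]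
        · simp only [decide_eq_true_eq]; omega
        · have : (2 * i.val + 1) / 2 = i.val := by omega
          simp [this, hvi]
      · refine ⟨⟨⟨2 * i.val + 1, by omega⟩, ?_, ?_⟩, ⟨⟨2 * i.val, by omega⟩, by simp, ?_⟩⟩
        · simp only [decide_eq_true_eq]; omega
        · have : (2 * i.val + 1) / 2 = i.val := by omega
          simp [this, hvi]
        · simp [hvi]
    · obtain ⟨⟨i, b⟩, hl, hvl⟩ := hv C hC
      have hi := i.2
      simp only at hvl
      refine ⟨⟨⟨2 * i.val + b.toNat, by cases b <;> simp <;> omega⟩, ?_, ?_⟩,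
        ⟨⟨2 * φ.n, by omega⟩, by simp, by simp⟩⟩
      · simp only [Bool.or_eq_true, List.any_eq_true, decide_eq_true_eq]
        exact Or.inr ⟨(i, b), hl, rfl⟩
      · have h1 : (2 * i.val + b.toNat) / 2 = i.val := by cases b <;> simp <;> omega
        have h2 : decide ((2 * i.val + b.toNat) % 2 = 1) = b := by cases b <;> simp <;> omega
        simp only [h1, hi, dif_pos]
        rw [decide_eq_true_eq, h2]
        exact hvl
  · rintro ⟨χ, hχ⟩
    set z : Fin (2 * φ.n + 1) := ⟨2 * φ.n, by omega⟩ with hz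
    refine ⟨fun i => decide (χ ⟨2 * i.val + 1, by omega⟩ ≠ χ z), fun C hC => ?_⟩
    have hcl := hχ (fun j => decide (j.val = 2 * φ.n) || C.any fun l =>
      decide (j.val = 2 * l.1.val + l.2.toNat)) (by
        simp only [CNF.edges, List.mem_append, List.mem_map]
        exact Or.inr ⟨C, hC, rfl⟩)
    have hvar : ∀ i : Fin φ.n, χ ⟨2 * i.val, by omega⟩ ≠ χ ⟨2 * i.val + 1, by omega⟩ := by
      intro i heq
      obtain ⟨⟨j, hj, hj'⟩, ⟨k, hk, hk'⟩⟩ := hχ (fun j => decide (j.val / 2 = i.val)) (by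
        simp only [CNF.edges, List.mem_append, List.mem_map]
        exact Or.inl ⟨i, List.mem_finRange i, rfl⟩)
      rw [decide_eq_true_eq] at hj hk
      have hcase : ∀ l : Fin (2 * φ.n + 1), l.val / 2 = i.val →
          χ l = χ ⟨2 * i.val, by omega⟩ := by
        intro l hl
        rcases Nat.even_or_odd' l.val with ⟨c, hc | hc⟩
        · have : l = ⟨2 * i.val, by omega⟩ := Fin.ext (by simp; omega)
          rw [this]
        · have : l = ⟨2 * i.val + 1, by omega⟩ := Fin.ext (by simp; omega)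
          rw [this, heq]
      rw [hcase j hj] at hj'
      rw [hcase k hk] at hk'
      rw [hj'] at hk'
      exact absurd hk' (by decide)
    -- some literal has a colour different from that of `z`
    have hlit : ∃ j : Fin (2 * φ.n + 1), (decide (j.val = 2 * φ.n) || C.any fun l =>
      decide (j.val = 2 * l.1.val + l.2.toNat)) = true ∧ χ j ≠ χ z := by
      obtain ⟨⟨j, hj, hj'⟩, ⟨k, hk, hk'⟩⟩ := hcl
      cases hzc : χ z
      · exact ⟨j, hj, by simp [hj']⟩
      · exact ⟨k, hk, by simp [hk']⟩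
    obtain ⟨j, hj, hne⟩ := hlit
    rw [Bool.or_eq_true, List.any_eq_true] at hj
    rcases hj with hj | ⟨⟨i, b⟩, hl, hj⟩
    · rw [decide_eq_true_eq] at hj
      exact absurd (congrArg χ (Fin.ext hj : j = z)) hne
    · rw [decide_eq_true_eq] at hj
      refine ⟨(i, b), hl, ?_⟩
      cases b
      · have h1 : j = ⟨2 * i.val, by omega⟩ := Fin.ext (by simpa using hj)
        rw [h1] at hne
        have h2 := hvar i
        simp only [ne_eq, decide_eq_false_iff_not, not_not]
        revert hne h2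
        cases χ ⟨2 * i.val, by omega⟩ <;> cases χ ⟨2 * i.val + 1, by omega⟩ <;> cases χ z <;> simp
      · have h1 : j = ⟨2 * i.val + 1, by omega⟩ := Fin.ext (by simpa using hj)
        rw [h1] at hne
        simpa using hne

end Pool.Agent.Helper81_Load
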